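import Mathlib
import Pool.Agent.H892.ZL.Stm2

set_option autoImplicit false

/-!
# The identity is an isomorphism
-/

namespace Pool.Agent.H860.ZL

open Pool.Agent.H892.ZL MvPolynomial

open scoped LinearAlgebra.Projectivization

theorem reg_id {m : ℕ} (V : Set (ℙ ℂ (Fin m → ℂ))) (φ : V → V) (hφ : ∀ v, φ v = v) :
    IsRegularMap V V φ := by
  intro v
  refine ⟨1, 0, fun i => X i, 1, fun i => isHomogeneous_X ℂ i, isHomogeneous_one _ ℂ, ?_, ?_⟩
  · rw [map_one]
    exact one_ne_zero
  · intro u _
    have h1 : (fun i => eval u.1.rep (X i : MvPolynomial (Fin m) ℂ)) = u.1.rep := by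
      funext i
      exact eval_X i
    refine ⟨?_, ?_⟩
    · rw [h1]
      exact u.1.rep_nonzero
    · rw [hφ]
      have h2 : ∀ (w : Fin m → ℂ) (hw : w ≠ 0), w = u.1.rep →
          u.1 = Projectivization.mk ℂ w hw := by
        rintro w hw rfl
        exact (Projectivization.mk_rep _).symm
      exact h2 _ _ h1

theorem t_REFL : S_REFL := by
  intro m V
  exact ⟨Equiv.refl V, reg_id V _ fun v => rfl, reg_id V _ fun v => rfl⟩

end Pool.Agent.H860.ZL
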