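import Mathlib
import Pool.Agent.H892.ZL.Stm

set_option autoImplicit false

/-!
# The tangent space of the Pluecker quadric in the affine chart
-/

namespace Pool.Agent.H860.ZL

open Pool.Agent.H892.ZL

theorem solve {F : Type} [Field F] (y0 y1 y2 a b c : F) (hy : y0 ≠ 0 ∨ y1 ≠ 0 ∨ y2 ≠ 0)
    (h : a * y2 - b * y1 + c * y0 = 0) :
    ∃ s0 s1 s2 : F, s0 * y1 - s1 * y0 = a ∧ s0 * y2 - s2 * y0 = b ∧ s1 * y2 - s2 * y1 = c := by
  rcases hy with hy | hy | hy
  · refine ⟨0, - a / y0, - b / y0, ?_, ?_, ?_⟩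
    · field_simp
      ring
    · field_simp
      ring
    · field_simp
      linear_combination (-1 : F) * h
  · refine ⟨a / y1, 0, - c / y1, ?_, ?_, ?_⟩
    · field_simp
      ring
    · field_simp
      linear_combination h
    · field_simp
      ring
  · refine ⟨b / y2, c / y2, 0, ?_, ?_, ?_⟩
    · field_simp
      linear_combination (-1 : F) * h
    · field_simp
      ring
    · field_simp
      ring

theorem t_TANA : S_TANA := by
  intro F _ x y hy u hu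
  have hy' : y 0 ≠ 0 ∨ y 1 ≠ 0 ∨ y 2 ≠ 0 := by
    by_contra hcon
    push Not at hcon
    apply hy
    funext i
    fin_cases i
    · exact hcon.1
    · exact hcon.2.1
    · exact hcon.2.2
  have hu' : (x 0 * y 1 - x 1 * y 0) * u 5 - (x 0 * y 2 - x 2 * y 0) * u 4 +
      (x 0 * 0 - 1 * y 0) * u 3 + (x 1 * y 2 - x 2 * y 1) * u 2 - (x 1 * 0 - 1 * y 1) * u 1 +
      (x 2 * 0 - 1 * y 2) * u 0 = 0 := by
    have h1 : Bf (aff x y) u = (x 2 * 0 - 1 * y 2) * u 0 - (x 1 * 0 - 1 * y 1) * u 1 +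
        (x 1 * y 2 - x 2 * y 1) * u 2 + (x 0 * 0 - 1 * y 0) * u 3 -
        (x 0 * y 2 - x 2 * y 0) * u 4 + (x 0 * y 1 - x 1 * y 0) * u 5 := rfl
    rw [h1] at hu
    linear_combination hu
  obtain ⟨s0, s1, s2, h0, h1, h2⟩ := solve (y 0) (y 1) (y 2)
    (u 0 + x 0 * u 4 - x 1 * u 2) (u 1 + x 0 * u 5 - x 2 * u 2) (u 3 + x 1 * u 5 - x 2 * u 4) hy'
    (by linear_combination (-1 : F) * hu')
  refine ⟨![s0, s1, s2], ![- u 2, - u 4, - u 5], ?_⟩
  funext i
  fin_cases i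
  · show u 0 = s0 * y 1 + x 0 * (- u 4) - s1 * y 0 - x 1 * (- u 2)
    linear_combination (-1 : F) * h0
  · show u 1 = s0 * y 2 + x 0 * (- u 5) - s2 * y 0 - x 2 * (- u 2)
    linear_combination (-1 : F) * h1
  · show u 2 = - (- u 2)
    ring
  · show u 3 = s1 * y 2 + x 1 * (- u 5) - s2 * y 1 - x 2 * (- u 4)
    linear_combination (-1 : F) * h2
  · show u 4 = - (- u 4)
    ring
  · show u 5 = - (- u 5)
    ring

end Pool.Agent.H860.ZL
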